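import Pool.Agent.helper60.AVK.SpecD

/-! # Row avk:EM3 (MP_24e9c4_gt) -/

set_option autoImplicit false

namespace Pool.Agent.helper60.AVK

theorem EM3_inv : ∀ v ∈ ({((0 : ℤ), (0 : ℤ)), (1, 0), (1, 1)} : Finset (ℤ × ℤ)),
    ∀ w ∈ ({((0 : ℤ), (0 : ℤ)), (1, 0), (1, 1)} : Finset (ℤ × ℤ)), v ≠ w →
    ∃ p q : ℤ, (((v.1 - w.1 : ℤ) : ℂ) + ((v.2 - w.2 : ℤ) : ℂ) * tau 1 1 1) *
      ((p : ℂ) + (q : ℂ) * tau 1 1 1) = 1 := by
  have ht : tau 1 1 1 ^ 2 + tau 1 1 1 + 1 = 0 := by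
    have := tau_rel h111
    push_cast at this
    linear_combination this
  intro v hv w hw hvw
  simp only [Finset.mem_insert, Finset.mem_singleton] at hv hw
  rcases hv with rfl | rfl | rfl <;> rcases hw with rfl | rfl | rfl
  · exact absurd rfl hvw
  · exact ⟨-1, 0, by push_cast; ring⟩
  · refine ⟨0, 1, ?_⟩
    push_cast
    linear_combination -ht
  · exact ⟨1, 0, by push_cast; ring⟩
  · exact absurd rfl hvw
  · refine ⟨1, 1, ?_⟩
    push_cast
    linear_combination -ht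
  · refine ⟨0, -1, ?_⟩
    push_cast
    linear_combination -ht
  · refine ⟨-1, -1, ?_⟩
    push_cast
    linear_combination -ht
  · exact absurd rfl hvw

theorem EM3 (h1 : ETR_stmt) (h2 : ECY_stmt) : EM3_stmt := by
  intro X _ _ hA x hx
  have hcard : ({((0 : ℤ), (0 : ℤ)), (1, 0), (1, 1)} : Finset (ℤ × ℤ)).card = 3 := by decide
  obtain ⟨-, hx1, -, hx2, -⟩ := h2 1 1 h111 X x
  obtain ⟨hy0, hy1, -, hy2, -⟩ := h2 1 1 h111 X (SS h111 • x)
  rw [hx] at hx1 hx2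
  by_contra hlt
  have hy3 : ¬ nT h111 (SS h111 • x) < 3 := by
    intro h
    obtain ⟨v, hv, w, hw, hvw, hfix⟩ := hy2 _ (by rw [hcard]; exact h)
    obtain ⟨p, q, hpq⟩ := EM3_inv v hv w hw hvw
    have hf : TT h111 (2 * p) (2 * q) • x = x := by
      have := hx1 p q
      exact_mod_cast this
    have := (h1 1 1 h111 X hA x (2 * p) (2 * q) (v.1 - w.1) (v.2 - w.2) hf hfix).2.1
    apply this
    push_cast at hpq ⊢
    linear_combination 2 * hpq
  have hy4 : nT h111 (SS h111 • x) = 3 := by omega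
  rw [hy4] at hy1
  obtain ⟨v, hv, w, hw, hvw, hfix⟩ := hx2 _ (by rw [hcard]; norm_num)
  obtain ⟨p, q, hpq⟩ := EM3_inv v hv w hw hvw
  have hf : TT h111 (3 * p) (3 * q) • (SS h111 • x) = SS h111 • x := by
    have := hy1 p q
    exact_mod_cast this
  have := (h1 1 1 h111 X hA x (v.1 - w.1) (v.2 - w.2) (3 * p) (3 * q) hfix hf).2.2
  apply this
  push_cast at hpq ⊢
  linear_combination 3 * hpq

end Pool.Agent.helper60.AVK
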